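import Pool.Agent.N41.RM.Fin

/-! Frobenius data and the rotated sums. -/

set_option autoImplicit false

namespace Pool.Agent.V7H1.HW

open Filter Topology Set ComplexConjugate
open Pool.Agent.W187.UR (Lam cmean)
open Pool.Agent.N41.RM (EG DS rayN fq cq oterm offc)

/-- the primes not dividing `N` -/
abbrev Good (N : ℕ) : Type := {p : Nat.Primes // ¬ (p : ℕ) ∣ N}

/-- `α p j`, `j < b`, have the properties of the eigenvalues of the Frobenius at `p` on `H^i`:
absolute value `p^(i/2)`, and the polynomial `∏ (1 - α T)` has integral coefficients. -/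
structure Frob (N i b : ℕ) (α : Good N → Fin b → ℂ) : Prop where
  weight : ∀ p j, ‖α p j‖ = ((p.1 : ℕ) : ℝ) ^ ((i : ℝ) / 2)
  integral : ∀ p, ∃ P : Polynomial ℤ,
    P.map (Int.castRingHom ℂ) = ∏ j, (1 - Polynomial.C (α p j) * Polynomial.X)

/-- the Euler product -/
noncomputable def Euler {N b : ℕ} (α : Good N → Fin b → ℂ) (s : ℂ) : ℂ :=
  ∏' p : Good N, ∏ j, (1 - α p j * ((p.1 : ℕ) : ℂ) ^ (-s))⁻¹

/-- `F` is a meromorphic function on the plane which continues the Euler product -/
structure Cont {N : ℕ} (i : ℕ) {b : ℕ} (α : Good N → Fin b → ℂ) (F : ℂ → ℂ) : Prop where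
  mero : ∀ s, MeromorphicAt F s
  eq : ∀ s : ℂ, 1 + (i : ℝ) / 2 < s.re → F s = Euler α s

/-- the term of the rotated sum at `p ^ n` -/
noncomputable def term {N b : ℕ} (α : Good N → Fin b → ℂ) (σ t γ T : ℝ) (x : Good N × ℕ) : ℂ :=
  let p : ℝ := ((x.1.1 : ℕ) : ℝ)
  let n : ℝ := x.2 + 1
  (((∑ j, α x.1 j ^ (x.2 + 1)).re / (n * p ^ (σ * n)) * Real.cos (t * (n * Real.log p)) : ℝ) : ℂ) *
    (Complex.exp ((γ * (n * Real.log p / T) : ℝ) * Complex.I) /
      (Real.Gamma (1 + n * Real.log p / T) : ℂ))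

/-- the rotated sum -/
noncomputable def W {N b : ℕ} (α : Good N → Fin b → ℂ) (σ t γ T : ℝ) : ℂ :=
  ∑' x, term α σ t γ T x

theorem multiset_conj {b : ℕ} {β : Fin b → ℂ} {P : Polynomial ℤ}
    (h : P.map (Int.castRingHom ℂ) = ∏ j, (1 - Polynomial.C (β j) * Polynomial.X)) :
    (Finset.univ.val.map fun j => conj (β j)) = Finset.univ.val.map β := by
  have h1 : ∏ j, (1 - Polynomial.C (conj (β j)) * Polynomial.X) =
      ∏ j, (1 - Polynomial.C (β j) * Polynomial.X) := by
    have h2 := congrArg (Polynomial.map (starRingEnd ℂ)) h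
    rw [Polynomial.map_map, Polynomial.map_prod] at h2
    have h3 : (starRingEnd ℂ).comp (Int.castRingHom ℂ) = Int.castRingHom ℂ :=
      RingHom.ext_int _ _
    rw [h3, h] at h2
    rw [h2]
    refine Finset.prod_congr rfl fun j _ => ?_
    simp
  have h4 : ∏ j, (Polynomial.X - Polynomial.C (conj (β j))) =
      ∏ j, (Polynomial.X - Polynomial.C (β j)) := by
    refine Polynomial.eq_of_infinite_eval_eq _ _ ?_
    refine Set.Infinite.mono (s := {0}ᶜ) ?_ (Set.Finite.infinite_compl (Set.finite_singleton 0))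
    intro y hy
    have hy0 : y ≠ 0 := hy
    show Polynomial.eval y _ = Polynomial.eval y _
    have h5 := congrArg (Polynomial.eval y⁻¹) h1
    rw [Polynomial.eval_prod, Polynomial.eval_prod] at h5 ⊢
    have h6 : ∀ z : ℂ, Polynomial.eval y (Polynomial.X - Polynomial.C z) =
        y * Polynomial.eval y⁻¹ (1 - Polynomial.C z * Polynomial.X) := by
      intro z
      simp only [Polynomial.eval_sub, Polynomial.eval_X, Polynomial.eval_C, Polynomial.eval_one,
        Polynomial.eval_mul]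
      field_simp
    simp_rw [h6, Finset.prod_mul_distrib]
    rw [h5]
  have h7 : ∀ f : Fin b → ℂ, (∏ j, (Polynomial.X - Polynomial.C (f j))).roots =
      Finset.univ.val.map f := by
    intro f
    have h8 := Polynomial.roots_multiset_prod_X_sub_C (Finset.univ.val.map f)
    rw [Multiset.map_map] at h8
    exact h8
  rw [← h7, ← h7, h4]

theorem power_real {b : ℕ} {β : Fin b → ℂ} {P : Polynomial ℤ}
    (h : P.map (Int.castRingHom ℂ) = ∏ j, (1 - Polynomial.C (β j) * Polynomial.X)) (k : ℕ) :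
    (∑ j, β j ^ k).im = 0 := by
  rw [← Complex.conj_eq_iff_im, map_sum]
  have h1 := multiset_conj h
  have h2 : ∀ f : Fin b → ℂ, ∑ j, f j ^ k = ((Finset.univ.val.map f).map fun z => z ^ k).sum := by
    intro f
    rw [Multiset.map_map]
    rfl
  simp_rw [map_pow]
  rw [h2 β, h2 fun j => conj (β j), h1]

variable {N i b : ℕ} {α : Good N → Fin b → ℂ} {F : ℂ → ℂ}

theorem Frob.eg (E : Frob N i b α) :
    EG ((i : ℝ) / 2) (fun p : Good N => ((p.1 : ℕ) : ℝ)) α where
  two_le := fun p => by exact_mod_cast p.1.2.two_le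
  sum := fun σ hσ => by
    have h1 : Summable fun p : Nat.Primes => ((p : ℕ) : ℝ) ^ (-σ) :=
      Nat.Primes.summable_rpow.2 (by linarith)
    exact h1.comp_injective Subtype.val_injective
  ha := fun p j => (E.weight p j).le
  real := fun p k => by
    obtain ⟨P, hP⟩ := E.integral p
    exact power_real hP _

theorem term_eq (σ t γ T : ℝ) (x : Good N × ℕ) : term α σ t γ T x =
    oterm (fun p : Good N => ((p.1 : ℕ) : ℝ)) α σ t γ T x := rfl

theorem W_summable (E : Frob N i b α) (σ t γ : ℝ) {T : ℝ} (hT : 0 < T) :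
    Summable fun x => ‖term α σ t γ T x‖ :=
  E.eg.oterm_summable σ t γ hT

theorem Cont.ds (C : Cont i α F) (E : Frob N i b α) :
    DS (1 + (i : ℝ) / 2) (fq (fun p : Good N => ((p.1 : ℕ) : ℝ))) (cq α) F :=
  E.eg.ds C.mero fun s hs => by
    rw [C.eq s hs]
    rfl

/-- the law -/
theorem law (E : Frob N i b α) (C : Cont i α F) (σ t : ℝ) {γ : ℝ} (hγ : Real.pi / 2 < γ) :
    ∃ (n : ℤ) (l : ℂ), meromorphicOrderAt F (σ + t * Complex.I) = n ∧
      meromorphicTrailingCoeffAt F (σ + t * Complex.I) = l ∧ l ≠ 0 ∧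
      (fun T : ℝ => W α σ t γ T - (-n * (Real.log T - Lam γ) +
        Real.log ‖l‖ - Real.pi * rayN F σ t * Complex.I)) =O[atTop] (fun T : ℝ => 1 / T) :=
  E.eg.off C.mero (fun s hs => by
    rw [C.eq s hs]
    rfl) σ t hγ

/-- the limit of the imaginary part -/
theorem im_lim (E : Frob N i b α) (C : Cont i α F) (σ t : ℝ) {γ : ℝ} (hγ : Real.pi / 2 < γ) :
    ∃ n : ℤ, meromorphicOrderAt F (σ + t * Complex.I) = n ∧
    Tendsto (fun T => (W α σ t γ T).re / Real.log T) atTop (𝓝 (-n)) ∧
    (n = 0 → Tendsto (fun T => W α σ t γ T) atTop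
      (𝓝 (Real.log ‖meromorphicTrailingCoeffAt F (σ + t * Complex.I)‖ -
        Real.pi * rayN F σ t * Complex.I))) := by
  obtain ⟨n, l, h1, h2, h3, h4⟩ := law E C σ t hγ
  have h5 : Tendsto (fun T : ℝ => W α σ t γ T - (-n * (Real.log T - Lam γ) +
        Real.log ‖l‖ - Real.pi * rayN F σ t * Complex.I)) atTop (𝓝 0) := by
    refine h4.trans_tendsto ?_
    exact tendsto_const_nhds.div_atTop tendsto_id
  refine ⟨n, h1, ?_, ?_⟩
  · have h6 := (Complex.continuous_re.tendsto _).comp h5
    rw [Complex.zero_re] at h6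
    have h7 : Tendsto (fun T : ℝ => (Real.log T)⁻¹) atTop (𝓝 0) :=
      tendsto_inv_atTop_zero.comp Real.tendsto_log_atTop
    have h8 := (h6.mul h7).add ((h7.const_mul (((n : ℂ) * Lam γ).re + Real.log ‖l‖)).add_const
      (-(n : ℝ)))
    rw [zero_mul, mul_zero, zero_add, zero_add] at h8
    refine h8.congr' ?_
    filter_upwards [eventually_gt_atTop 1] with T hT
    have h9 : Real.log T ≠ 0 := (Real.log_pos hT).ne'
    simp only [Function.comp_apply, Complex.sub_re, Complex.add_re, Complex.mul_re,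
      Complex.neg_re, Complex.neg_im, Complex.intCast_re, Complex.intCast_im, Complex.ofReal_re,
      Complex.ofReal_im, Complex.I_re, Complex.I_im, Complex.sub_im, Complex.mul_im]
    field_simp
    ring
  · intro hn
    have h6 := h5.add_const (Real.log ‖l‖ - Real.pi * rayN F σ t * Complex.I : ℂ)
    rw [zero_add] at h6
    rw [h2]
    refine h6.congr fun T => ?_
    rw [hn]
    push_cast
    ring

end Pool.Agent.V7H1.HW
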