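import Pool.Agent.V7H1.HW.Law

/-! The functional equation in terms of the rotated sums. -/

set_option autoImplicit false

namespace Pool.Agent.V7H1.HW

open Filter Topology Set ComplexConjugate
open Pool.Agent.W187.UR (Lam cmean)
open Pool.Agent.N41.RM (EG DS rayN fq cq oterm offc)

variable {N i b : ℕ} {α : Good N → Fin b → ℂ} {F : ℂ → ℂ}

/-- equality of meromorphic functions `L(s) = ε L(k - s)` -/
def FEq (k : ℝ) (L : ℂ → ℂ) : Prop :=
  ∃ ε : ℂ, (ε = 1 ∨ ε = -1) ∧ ∀ z : ℂ, ∀ᶠ s in 𝓝[≠] z, L s = ε * L (k - s)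

/-- holomorphic and not zero at the point -/
def Reg (G : ℂ → ℂ) (s : ℂ) : Prop := AnalyticAt ℂ G s ∧ G s ≠ 0

theorem Reg.order {G : ℂ → ℂ} {s : ℂ} (h : Reg G s) : meromorphicOrderAt G s = 0 :=
  Pool.Agent.R409.RA.order_of_ne h.1 h.2

theorem tendsto_refl (k z : ℂ) : Tendsto (fun s : ℂ => k - s) (𝓝[≠] z) (𝓝[≠] (k - z)) := by
  rw [tendsto_nhdsWithin_iff]
  constructor
  · exact ((continuous_const.sub continuous_id).tendsto z).mono_left nhdsWithin_le_nhds
  · filter_upwards [self_mem_nhdsWithin] with w hw h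
    apply hw
    rw [mem_singleton_iff] at h ⊢
    exact sub_right_injective h

theorem mero_refl {L : ℂ → ℂ} {k z : ℂ} (h : MeromorphicAt L (k - z)) :
    MeromorphicAt (fun s => L (k - s)) z :=
  MeromorphicAt.comp_analyticAt (f := L) (g := fun s : ℂ => k - s) h (by fun_prop)

theorem order_refl {L : ℂ → ℂ} (k z : ℂ) :
    meromorphicOrderAt (fun s => L (k - s)) z = meromorphicOrderAt L (k - z) := by
  have h1 : deriv (fun s : ℂ => k - s) z ≠ 0 := by
    rw [deriv_const_sub, deriv_id'']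
    norm_num
  exact meromorphicOrderAt_comp_of_deriv_ne_zero (f := L) (g := fun s : ℂ => k - s)
    (by fun_prop) h1

/-- the value of `F` at a point of order zero -/
theorem val_of_reg {G : ℂ → ℂ} {s : ℂ} (h : Reg G s) :
    meromorphicTrailingCoeffAt G s = G s :=
  h.1.meromorphicTrailingCoeffAt_of_ne_zero h.2

theorem reg_right (E : Frob N i b α) (C : Cont i α F) {s : ℂ} (hs : 1 + (i : ℝ) / 2 < s.re) :
    Reg F s := by
  have D := C.ds E
  refine ⟨(D.ser_analytic hs).cexp.congr (D.ev hs).symm, ?_⟩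
  rw [D.eq s hs]
  exact Complex.exp_ne_zero _

/-- the relation between the two sums, at the points of `D` -/
def CritB (i : ℕ) (α : Good N → Fin b → ℂ) (γ : ℝ) (G : ℂ → ℂ) (D : ℂ → Prop) : Prop :=
  ∀ σ t : ℝ, 1 + (i : ℝ) / 2 < σ → D (σ + t * Complex.I) →
    Tendsto (fun T : ℝ => (W α ((i : ℝ) + 1 - σ) (-t) γ T).re - (W α σ t γ T).re) atTop
      (𝓝 (Real.log ‖G (σ + t * Complex.I)‖ -
        Real.log ‖G (((i : ℝ) + 1 : ℝ) - (σ + t * Complex.I))‖))

theorem re_of_lim {σ t γ : ℝ} {c : ℂ} (h : Lim α σ t γ 0 c) :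
    Tendsto (fun T : ℝ => (W α σ t γ T).re) atTop (𝓝 c.re) := by
  have h1 := (Complex.continuous_re.tendsto _).comp h
  refine h1.congr fun T => ?_
  simp

/-- the two sums have a limit difference only if the order is zero, and the limit is the logarithm
of the absolute value of the leading coefficient -/
theorem diff_lim (E : Frob N i b α) (C : Cont i α F) {γ : ℝ} (hγ : Real.pi / 2 < γ) {σ t : ℝ}
    (hσ : 1 + (i : ℝ) / 2 < σ) (σ' t' x : ℝ) :
    Tendsto (fun T : ℝ => (W α σ' t' γ T).re - (W α σ t γ T).re) atTop (𝓝 x) ↔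
      meromorphicOrderAt F (σ' + t' * Complex.I) = 0 ∧
      Real.log ‖meromorphicTrailingCoeffAt F (σ' + t' * Complex.I)‖ -
        Real.log ‖F (σ + t * Complex.I)‖ = x := by
  have hreg : Reg F (σ + t * Complex.I) := reg_right E C (by simpa using hσ)
  have h1 : Lim α σ t γ 0 (Real.log ‖meromorphicTrailingCoeffAt F (σ + t * Complex.I)‖ -
        Real.pi * rayN F σ t * Complex.I) := (lim_iff E C σ t hγ 0 _).2 ⟨hreg.order, rfl⟩
  rw [val_of_reg hreg] at h1
  have h2 := re_of_lim h1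
  have h3 : (((Real.log ‖F (σ + t * Complex.I)‖ : ℝ) : ℂ) -
      Real.pi * rayN F σ t * Complex.I).re = Real.log ‖F (σ + t * Complex.I)‖ := by
    simp
  rw [h3] at h2
  obtain ⟨n, c, h4⟩ := lim_exists E C σ' t' hγ
  obtain ⟨h5, h6⟩ := (lim_iff E C σ' t' hγ n c).1 h4
  have h7 : c.re = Real.log ‖meromorphicTrailingCoeffAt F (σ' + t' * Complex.I)‖ := by
    rw [h6]; simp
  have h8 : Tendsto (fun T : ℝ => (W α σ' t' γ T).re + n * (Real.log T - (Lam γ).re)) atTop
      (𝓝 c.re) := by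
    refine ((Complex.continuous_re.tendsto _).comp h4).congr fun T => ?_
    simp
  rw [← h7]
  constructor
  · intro h
    have h9 : Tendsto (fun T : ℝ => (n : ℝ) * (Real.log T - (Lam γ).re)) atTop
        (𝓝 (c.re - (x + Real.log ‖F (σ + t * Complex.I)‖))) := by
      refine (h8.sub (h.add h2)).congr fun T => ?_
      ring
    have h10 : n = 0 := by
      refine log_unb (Λ := (((Lam γ).re : ℝ) : ℂ)) (c := (((c.re - (x + Real.log
        ‖F (σ + t * Complex.I)‖)) : ℝ) : ℂ)) ?_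
      refine ((Complex.continuous_ofReal.tendsto _).comp h9).congr fun T => ?_
      simp
    subst h10
    refine ⟨by rw [h5]; rfl, ?_⟩
    have h11 := tendsto_nhds_unique (h8.congr fun T => by simp) (re_of_lim h4)
    have h12 : Tendsto (fun T : ℝ => (W α σ' t' γ T).re) atTop
        (𝓝 (x + Real.log ‖F (σ + t * Complex.I)‖)) :=
      (h.add h2).congr fun T => by ring
    have h13 := tendsto_nhds_unique (re_of_lim h4) h12
    linarith
  · rintro ⟨h9, h10⟩
    rw [h5] at h9
    have h11 : n = 0 := by exact_mod_cast h9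
    subst h11
    have h12 := (re_of_lim h4).sub h2
    rwa [h10] at h12

/-- the functional equation is equivalent to the relation between the sums -/
theorem partB_iff (E : Frob N i b α) (C : Cont i α F) {G : ℂ → ℂ} (hG : ∀ s, MeromorphicAt G s)
    {D : ℂ → Prop} (hD1 : ∀ s, D s → Reg G s ∧ Reg G (((i : ℝ) + 1 : ℝ) - s)) {z₀ : ℂ}
    (hlt : 1 + (i : ℝ) / 2 < z₀.re) (hD2 : ∀ᶠ s in 𝓝[≠] z₀, D s) {γ : ℝ}
    (hγ : Real.pi / 2 < γ) :
    FEq ((i : ℝ) + 1) (fun s => G s * F s) ↔ CritB i α γ G D := by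
  set k : ℝ := (i : ℝ) + 1 with hk
  set L : ℂ → ℂ := fun s => G s * F s with hL
  have hLm : ∀ s, MeromorphicAt L s := fun s => (hG s).mul (C.mero s)
  have hord : ∀ s, meromorphicOrderAt L s = meromorphicOrderAt G s + meromorphicOrderAt F s :=
    fun s => fun_meromorphicOrderAt_mul (hG s) (C.mero s)
  have hpt : ∀ σ t : ℝ, (((k - σ : ℝ)) : ℂ) + ((-t : ℝ) : ℂ) * Complex.I =
      (k : ℂ) - (σ + t * Complex.I) := by
    intro σ t
    push_cast
    ring
  constructor
  · rintro ⟨ε, hε, h⟩ σ t hσ hDs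
    obtain ⟨hr1, hr2⟩ := hD1 _ hDs
    set s : ℂ := σ + t * Complex.I with hs
    have hε0 : ε ≠ 0 := by rcases hε with h | h <;> rw [h] <;> norm_num
    have hεn : ‖ε‖ = 1 := by rcases hε with h | h <;> rw [h] <;> simp
    rw [diff_lim E C hγ hσ, hpt, ← hs]
    have hF : Reg F s := reg_right E C (by simpa [hs] using hσ)
    -- orders
    have h1 : meromorphicOrderAt L s = 0 := by
      rw [hord, hr1.order, hF.order, add_zero]
    have h2 : meromorphicOrderAt L s = meromorphicOrderAt L (k - s) := by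
      rw [meromorphicOrderAt_congr (h s), ← order_refl (k : ℂ) s]
      have h3 := fun_meromorphicOrderAt_mul (f := fun _ : ℂ => ε) (g := fun w => L (k - w)) (x := s)
        (by fun_prop) (mero_refl (hLm _))
      rw [h3]
      have h4 : meromorphicOrderAt (fun _ : ℂ => ε) s = 0 :=
        Reg.order ⟨by fun_prop, hε0⟩
      rw [h4, zero_add]
    have h3 : meromorphicOrderAt F (k - s) = 0 := by
      rw [h1, hord, hr2.order, zero_add] at h2
      exact h2.symm
    refine ⟨h3, ?_⟩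
    -- values
    have h4 : Tendsto F (𝓝[≠] (k - s)) (𝓝 (meromorphicTrailingCoeffAt F (k - s))) := by
      have h5 := (C.mero (k - s)).tendsto_nhds_meromorphicTrailingCoeffAt
      rw [h3] at h5
      simpa using h5
    have h5 : Tendsto (fun w => ε * (G (k - w) * F (k - w))) (𝓝[≠] s)
        (𝓝 (ε * (G (k - s) * meromorphicTrailingCoeffAt F (k - s)))) := by
      have h6 := tendsto_refl (k : ℂ) s
      refine Tendsto.const_mul _ (Tendsto.mul ?_ (h4.comp h6))
      exact (hr2.1.continuousAt.tendsto.mono_left nhdsWithin_le_nhds).comp h6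
    have h6 : Tendsto (fun w => G w * F w) (𝓝[≠] s) (𝓝 (G s * F s)) :=
      (hr1.1.continuousAt.tendsto.mul hF.1.continuousAt.tendsto).mono_left nhdsWithin_le_nhds
    have h7 : G s * F s = ε * (G (k - s) * meromorphicTrailingCoeffAt F (k - s)) :=
      tendsto_nhds_unique (h6.congr' (h s)) h5
    have h8 : meromorphicTrailingCoeffAt F (k - s) ≠ 0 :=
      (C.mero _).meromorphicTrailingCoeffAt_ne_zero (order_ne_top E C _)
    have h9 := congrArg norm h7
    rw [norm_mul, norm_mul, norm_mul, hεn, one_mul] at h9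
    have h10 := congrArg Real.log h9
    have e1 : ‖G s‖ ≠ 0 := norm_ne_zero_iff.2 hr1.2
    have e2 : ‖F s‖ ≠ 0 := norm_ne_zero_iff.2 hF.2
    have e3 : ‖G (k - s)‖ ≠ 0 := norm_ne_zero_iff.2 hr2.2
    have e4 : ‖meromorphicTrailingCoeffAt F (k - s)‖ ≠ 0 := norm_ne_zero_iff.2 h8
    rw [Real.log_mul e1 e2, Real.log_mul e3 e4] at h10
    linarith
  · intro h
    have hreg : ∀ (H : ℂ → ℂ), (∀ s, MeromorphicAt H s) → (∀ s, meromorphicOrderAt H s ≠ ⊤) →
        ∀ z : ℂ, ∀ᶠ s in 𝓝[≠] z, Reg H s := by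
      intro H hH hHt z
      filter_upwards [(hH z).eventually_analyticAt,
        (meromorphicOrderAt_ne_top_iff_eventually_ne_zero (hH z)).1 (hHt z)] with s h1 h2
      exact ⟨h1, h2⟩
    have hFt : ∀ s, meromorphicOrderAt F s ≠ ⊤ := order_ne_top E C
    have ho : IsOpen {z : ℂ | 1 + (i : ℝ) / 2 < z.re} :=
      isOpen_lt continuous_const Complex.continuous_re
    have hev : ∀ᶠ s in 𝓝[≠] z₀, 1 + (i : ℝ) / 2 < s.re ∧ D s ∧ Reg F (k - s) := by
      filter_upwards [nhdsWithin_le_nhds (ho.mem_nhds hlt), hD2,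
        (tendsto_refl (k : ℂ) z₀).eventually (hreg F C.mero hFt (k - z₀))] with s h1 h2 h4
      exact ⟨h1, h2, h4⟩
    obtain ⟨U, hU, hUo, hz⟩ := eventually_nhds_iff.1 (eventually_nhdsWithin_iff.1 hev)
    -- a point of the punctured neighbourhood
    obtain ⟨s₁, hs₁, hne⟩ : ∃ s₁ ∈ U, s₁ ≠ z₀ := by
      have h1 : (𝓝[≠] z₀).NeBot := inferInstance
      have h2 : U ∈ 𝓝[≠] z₀ := nhdsWithin_le_nhds (hUo.mem_nhds hz)
      obtain ⟨s, hs⟩ := (Filter.inter_mem h2 self_mem_nhdsWithin : U ∩ {z₀}ᶜ ∈ 𝓝[≠] z₀) |>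
        (Filter.nonempty_of_mem ·)
      exact ⟨s, hs.1, hs.2⟩
    have hV' : ∀ᶠ s in 𝓝 s₁, 1 + (i : ℝ) / 2 < s.re ∧ D s ∧ Reg F (k - s) := by
      have h1 : {z₀}ᶜ ∈ 𝓝 s₁ := isOpen_compl_singleton.mem_nhds hne
      filter_upwards [hUo.mem_nhds hs₁, h1] with s h2 h3
      exact hU s h2 h3
    have hV : ∀ᶠ s in 𝓝 s₁, 1 + (i : ℝ) / 2 < s.re ∧ Reg G s ∧ Reg G (k - s) ∧
        Reg F (k - s) := by
      filter_upwards [hV'] with s hs
      exact ⟨hs.1, (hD1 s hs.2.1).1, (hD1 s hs.2.1).2, hs.2.2⟩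
    -- the quotient
    set R : ℂ → ℂ := fun s => L s / L (k - s) with hR
    have hval : ∀ s : ℂ, 1 + (i : ℝ) / 2 < s.re → D s → Reg F (k - s) →
        ‖L s‖ = ‖L (k - s)‖ ∧ L (k - s) ≠ 0 := by
      intro s h1 hDs h4
      obtain ⟨h2, h3⟩ := hD1 s hDs
      have h5 := h s.re s.im h1 (by rwa [Complex.re_add_im])
      rw [diff_lim E C hγ h1, hpt, Complex.re_add_im, val_of_reg h4] at h5
      have h6 := h5.2
      have hF : Reg F s := reg_right E C h1
      have e1 : ‖G s‖ ≠ 0 := norm_ne_zero_iff.2 h2.2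
      have e2 : ‖F s‖ ≠ 0 := norm_ne_zero_iff.2 hF.2
      have e3 : ‖G (k - s)‖ ≠ 0 := norm_ne_zero_iff.2 h3.2
      have e4 : ‖F (k - s)‖ ≠ 0 := norm_ne_zero_iff.2 h4.2
      refine ⟨?_, mul_ne_zero h3.2 h4.2⟩
      show ‖G s * F s‖ = ‖G (k - s) * F (k - s)‖
      rw [norm_mul, norm_mul]
      have h7 : Real.log (‖G s‖ * ‖F s‖) = Real.log (‖G (k - s)‖ * ‖F (k - s)‖) := by
        rw [Real.log_mul e1 e2, Real.log_mul e3 e4]
        linarith
      exact Real.log_injOn_pos (by
        show 0 < ‖G s‖ * ‖F s‖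
        positivity) (by
        show 0 < ‖G (k - s)‖ * ‖F (k - s)‖
        positivity) h7
    have hRn : ∀ᶠ s in 𝓝 s₁, ‖R s‖ = 1 := by
      filter_upwards [hV'] with s hs
      obtain ⟨h1, h2⟩ := hval s hs.1 hs.2.1 hs.2.2
      rw [hR]
      simp only
      rw [norm_div, h1, div_self (norm_ne_zero_iff.2 h2)]
    have hRd : ∀ᶠ s in 𝓝 s₁, DifferentiableAt ℂ R s := by
      filter_upwards [hV] with s hs
      have hF : Reg F s := reg_right E C hs.1
      have hlin : DifferentiableAt ℂ (fun w : ℂ => (k : ℂ) - w) s := by fun_prop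
      have d1 : DifferentiableAt ℂ (fun w => L (k - w)) s :=
        DifferentiableAt.comp (g := L) (f := fun w : ℂ => (k : ℂ) - w) s
          (hs.2.2.1.1.differentiableAt.mul hs.2.2.2.1.differentiableAt) hlin
      exact (hs.2.1.1.differentiableAt.mul hF.1.differentiableAt).div d1
        (mul_ne_zero hs.2.2.1.2 hs.2.2.2.2)
    have hconst : ∀ᶠ s in 𝓝 s₁, R s = R s₁ := by
      refine Complex.eventually_eq_of_isLocalMax_norm hRd ?_
      have h1 := hRn.self_of_nhds
      filter_upwards [hRn] with s hs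
      simp only [Function.comp_apply]
      rw [hs, h1]
    set κ : ℂ := R s₁ with hκ
    have hid : ∀ᶠ s in 𝓝 s₁, L s = κ * L (k - s) := by
      filter_upwards [hconst, hV'] with s h1 hs
      obtain ⟨-, h2⟩ := hval s hs.1 hs.2.1 hs.2.2
      rw [← h1, hR]
      simp only
      rw [div_mul_cancel₀ _ h2]
    -- the identity theorem
    have hglob : ∀ z : ℂ, ∀ᶠ s in 𝓝[≠] z, L s = κ * L (k - s) := by
      intro z
      have hm : MeromorphicOn (fun s => L s - κ * L (k - s)) univ := fun s _ =>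
        (hLm s).sub ((MeromorphicAt.const κ s).mul (mero_refl (hLm _)))
      have htop : meromorphicOrderAt (fun s => L s - κ * L (k - s)) z = ⊤ := by
        by_contra hne
        have h1 := hm.meromorphicOrderAt_ne_top_of_isPreconnected isPreconnected_univ
          (mem_univ z) (mem_univ s₁) hne
        apply h1
        rw [meromorphicOrderAt_eq_top_iff]
        refine Filter.Eventually.filter_mono nhdsWithin_le_nhds ?_
        filter_upwards [hid] with s hs
        rw [hs, sub_self]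
      rw [meromorphicOrderAt_eq_top_iff] at htop
      filter_upwards [htop] with s hs
      exact sub_eq_zero.1 hs
    -- the constant is a sign
    have hκ2 : κ * κ = 1 := by
      have h1 := hglob (k - s₁)
      have h2 := (tendsto_refl (k : ℂ) s₁).eventually h1
      have h3 : ∀ᶠ s in 𝓝[≠] s₁, L s = κ * (κ * L s) ∧ L (k - s) ≠ 0 := by
        filter_upwards [h2, nhdsWithin_le_nhds hid, nhdsWithin_le_nhds hV'] with s e1 e2 hs
        obtain ⟨-, e3⟩ := hval s hs.1 hs.2.1 hs.2.2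
        refine ⟨?_, e3⟩
        rw [sub_sub_cancel] at e1
        rw [← e1]
        exact e2
      obtain ⟨s, e1, e2⟩ := (h3.and (nhdsWithin_le_nhds hid)).exists
      have e3 : L s ≠ 0 := by
        rw [e2]
        refine mul_ne_zero ?_ e1.2
        intro h0
        rw [h0, zero_mul] at e1
        rw [h0, zero_mul] at e2
        have h4 := hRn.self_of_nhds
        rw [← hκ, h0] at h4
        simp at h4
      have e4 : (κ * κ) * L s = 1 * L s := by rw [one_mul, mul_assoc]; exact e1.1.symm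
      exact mul_right_cancel₀ e3 e4
    exact ⟨κ, mul_self_eq_one_iff.1 hκ2, hglob⟩

end Pool.Agent.V7H1.HW
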