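import Pool.Agent.V7H1.HW.FE
import Mathlib.Analysis.SpecialFunctions.Gamma.Deligne

/-! The completed function. -/

set_option autoImplicit false

namespace Pool.Agent.V7H1.HW

open Filter Topology Set ComplexConjugate
open Pool.Agent.W187.UR (Lam cmean)
open Pool.Agent.N41.RM (EG DS rayN fq cq oterm offc)

/-- the product of the gamma factors of `H^i`, where `h p = h^{p,i-p}` for `2 p < i`, and for even
`i` the two parts of `h^{i/2,i/2}` are `hp` and `hm` -/
noncomputable def arch (i : ℕ) (h : ℕ → ℕ) (hp hm : ℕ) (s : ℂ) : ℂ :=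
  (∏ p ∈ Finset.range ((i + 1) / 2), Complex.Gammaℂ (s - p) ^ h p) *
    (if Even i then Complex.Gammaℝ (s - (i / 2 : ℕ)) ^ hp *
      Complex.Gammaℝ (s - (i / 2 : ℕ) + 1) ^ hm else 1)

/-- the product of the Euler factors at the primes dividing `N` -/
noncomputable def bad (N : ℕ) (Q : ℕ → Polynomial ℝ) (s : ℂ) : ℂ :=
  ∏ p ∈ N.primeFactors, (Polynomial.aeval ((p : ℂ) ^ (-s)) (Q p))⁻¹

/-- all the factors of the completed function but the incomplete `L`-function -/
noncomputable def extra (N i : ℕ) (h : ℕ → ℕ) (hp hm : ℕ) (Q : ℕ → Polynomial ℝ) (A : ℝ)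
    (s : ℂ) : ℂ :=
  (A : ℂ) ^ (s / 2) * arch i h hp hm s * bad N Q s

theorem Reg.mul {G H : ℂ → ℂ} {s : ℂ} (h1 : Reg G s) (h2 : Reg H s) :
    Reg (fun s => G s * H s) s := ⟨h1.1.mul h2.1, mul_ne_zero h1.2 h2.2⟩

theorem Reg.pow {G : ℂ → ℂ} {s : ℂ} (h1 : Reg G s) (n : ℕ) :
    Reg (fun s => G s ^ n) s := ⟨h1.1.pow n, pow_ne_zero n h1.2⟩

theorem Reg.prod {ι : Type} {S : Finset ι} {G : ι → ℂ → ℂ} {s : ℂ} (h : ∀ j ∈ S, Reg (G j) s) :
    Reg (fun s => ∏ j ∈ S, G j s) s := by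
  refine ⟨?_, Finset.prod_ne_zero_iff.2 fun j hj => (h j hj).2⟩
  have h1 := Finset.analyticAt_fun_prod (𝕜 := ℂ) (f := G) (c := s) S fun j hj => (h j hj).1
  exact h1

theorem Reg.inv' {G : ℂ → ℂ} {s : ℂ} (h1 : AnalyticAt ℂ G s) (h2 : G s ≠ 0) :
    Reg (fun s => (G s)⁻¹) s := ⟨h1.fun_inv h2, inv_ne_zero h2⟩

theorem gammaC_reg {s : ℂ} (c : ℂ) (h : ∀ m : ℕ, s + c ≠ -m) :
    Reg (fun s => Complex.Gammaℂ (s + c)) s := by
  have h1 : Complex.Gammaℂ (s + c) ≠ 0 := by
    rw [Complex.Gammaℂ_def]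
    have h2 : Complex.Gamma (s + c) ≠ 0 := Complex.Gamma_ne_zero h
    have h3 : (2 * Real.pi : ℂ) ≠ 0 := by
      have := Real.pi_ne_zero
      simp [this]
    have h4 : (2 * Real.pi : ℂ) ^ (-(s + c)) ≠ 0 := by
      rw [Complex.cpow_def_of_ne_zero h3]
      exact Complex.exp_ne_zero _
    exact mul_ne_zero (mul_ne_zero two_ne_zero h4) h2
  have h5 : AnalyticAt ℂ (fun s => (Complex.Gammaℂ (s + c))⁻¹) s :=
    ((Complex.differentiable_Gammaℂ_inv).comp (by fun_prop : Differentiable ℂ fun s : ℂ =>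
      s + c)).analyticAt s
  have h6 := Reg.inv' h5 (inv_ne_zero h1)
  simpa using h6

theorem gammaR_reg {s : ℂ} (c : ℂ) (h : ∀ m : ℕ, s + c ≠ -(2 * m)) :
    Reg (fun s => Complex.Gammaℝ (s + c)) s := by
  have h1 : Complex.Gammaℝ (s + c) ≠ 0 := by
    rw [Ne, Complex.Gammaℝ_eq_zero_iff]
    rintro ⟨m, hm⟩
    exact h m hm
  have h5 : AnalyticAt ℂ (fun s => (Complex.Gammaℝ (s + c))⁻¹) s :=
    ((Complex.differentiable_Gammaℝ_inv).comp (by fun_prop : Differentiable ℂ fun s : ℂ =>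
      s + c)).analyticAt s
  have h6 := Reg.inv' h5 (inv_ne_zero h1)
  simpa using h6

theorem gammaC_mero (s c : ℂ) : MeromorphicAt (fun s => Complex.Gammaℂ (s + c)) s := by
  have h5 : AnalyticAt ℂ (fun s => (Complex.Gammaℂ (s + c))⁻¹) s :=
    ((Complex.differentiable_Gammaℂ_inv).comp (by fun_prop : Differentiable ℂ fun s : ℂ =>
      s + c)).analyticAt s
  have h6 := h5.meromorphicAt.fun_inv
  simpa using h6

theorem gammaR_mero (s c : ℂ) : MeromorphicAt (fun s => Complex.Gammaℝ (s + c)) s := by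
  have h5 : AnalyticAt ℂ (fun s => (Complex.Gammaℝ (s + c))⁻¹) s :=
    ((Complex.differentiable_Gammaℝ_inv).comp (by fun_prop : Differentiable ℂ fun s : ℂ =>
      s + c)).analyticAt s
  have h6 := h5.meromorphicAt.fun_inv
  simpa using h6

variable {N i : ℕ} {h : ℕ → ℕ} {hp hm : ℕ} {Q : ℕ → Polynomial ℝ} {A : ℝ}

theorem arch_mero (s : ℂ) : MeromorphicAt (arch i h hp hm) s := by
  unfold arch
  refine MeromorphicAt.fun_mul ?_ ?_
  · refine MeromorphicAt.fun_prod fun p _ => ?_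
    refine MeromorphicAt.fun_pow ?_ _
    exact gammaC_mero s (-(p : ℂ))
  · split_ifs
    · refine MeromorphicAt.fun_mul (MeromorphicAt.fun_pow ?_ _) (MeromorphicAt.fun_pow ?_ _)
      · exact gammaR_mero s (-((i / 2 : ℕ) : ℂ))
      · have := gammaR_mero s (-((i / 2 : ℕ) : ℂ) + 1)
        refine this.congr ?_
        refine Filter.Eventually.of_forall fun z => ?_
        show Complex.Gammaℝ (z + (-((i / 2 : ℕ) : ℂ) + 1)) = Complex.Gammaℝ (z - (i / 2 : ℕ) + 1)
        congr 1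
        ring
    · fun_prop

theorem arch_reg {s : ℂ} (hs : (i : ℝ) / 2 < s.re ∨ s.im ≠ 0) : Reg (arch i h hp hm) s := by
  unfold arch
  refine Reg.mul ?_ ?_
  · refine Reg.prod fun p hp' => Reg.pow ?_ _
    have h1 : 2 * p < i := by
      have := Finset.mem_range.1 hp'
      omega
    have h1' : 2 * (p : ℝ) < i := by exact_mod_cast h1
    refine gammaC_reg (-(p : ℂ)) fun m hm' => ?_
    rcases hs with hs | hs
    · have h2 := congrArg Complex.re hm'
      simp only [Complex.add_re, Complex.neg_re, Complex.natCast_re] at h2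
      have h3 : (0 : ℝ) ≤ m := m.cast_nonneg
      linarith
    · apply hs
      have h2 := congrArg Complex.im hm'
      simpa using h2
  · split_ifs with he
    · have h1 : (((i / 2 : ℕ) : ℝ)) = (i : ℝ) / 2 := by
        obtain ⟨k, hk⟩ := he
        have h2 : i / 2 = k := by omega
        rw [h2, hk]
        push_cast
        ring
      refine Reg.mul (Reg.pow ?_ _) (Reg.pow ?_ _)
      · refine gammaR_reg (-((i / 2 : ℕ) : ℂ)) fun m hm' => ?_
        rcases hs with hs | hs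
        · have h2 := congrArg Complex.re hm'
          simp only [Complex.add_re, Complex.neg_re, Complex.natCast_re, Complex.mul_re,
            Complex.re_ofNat, Complex.im_ofNat, zero_mul, sub_zero, h1] at h2
          have h3 : (0 : ℝ) ≤ m := m.cast_nonneg
          linarith
        · apply hs
          have h2 := congrArg Complex.im hm'
          simpa using h2
      · have h3 : Reg (fun z => Complex.Gammaℝ (z + (-((i / 2 : ℕ) : ℂ) + 1))) s := by
          refine gammaR_reg (-((i / 2 : ℕ) : ℂ) + 1) fun m hm' => ?_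
          rcases hs with hs | hs
          · have h2 := congrArg Complex.re hm'
            simp only [Complex.add_re, Complex.neg_re, Complex.natCast_re, Complex.mul_re,
              Complex.re_ofNat, Complex.im_ofNat, zero_mul, sub_zero, h1, Complex.one_re] at h2
            have h3 : (0 : ℝ) ≤ m := m.cast_nonneg
            linarith
          · apply hs
            have h2 := congrArg Complex.im hm'
            simpa using h2
        have h4 : (fun z : ℂ => Complex.Gammaℝ (z + (-((i / 2 : ℕ) : ℂ) + 1))) =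
            fun z => Complex.Gammaℝ (z - (i / 2 : ℕ) + 1) := by
          funext z
          congr 1
          ring
        rwa [h4] at h3
    · exact ⟨by fun_prop, one_ne_zero⟩

theorem aeval_diff {p : ℕ} (hp : p ≠ 0) (q : Polynomial ℝ) :
    Differentiable ℂ fun s : ℂ => Polynomial.aeval ((p : ℂ) ^ (-s)) q := by
  have hp' : (p : ℂ) ≠ 0 := by exact_mod_cast hp
  have h1 : Differentiable ℂ fun s : ℂ => (p : ℂ) ^ (-s) := by
    intro s
    exact DifferentiableAt.const_cpow (by fun_prop) (Or.inl hp')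
  have h2 : (fun s : ℂ => Polynomial.aeval ((p : ℂ) ^ (-s)) q) =
      fun s => (q.map (algebraMap ℝ ℂ)).eval ((p : ℂ) ^ (-s)) := by
    funext s
    rw [Polynomial.eval_map_algebraMap]
  rw [h2]
  exact (Polynomial.differentiable _).comp h1

theorem bad_mero (s : ℂ) : MeromorphicAt (bad N Q) s := by
  unfold bad
  refine MeromorphicAt.fun_prod fun p hp => ?_
  have h1 := Nat.prime_of_mem_primeFactors hp
  exact ((aeval_diff h1.ne_zero (Q p)).analyticAt s).meromorphicAt.fun_inv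

theorem bad_reg {s : ℂ} (hs : ∀ p ∈ N.primeFactors, Polynomial.aeval ((p : ℂ) ^ (-s)) (Q p) ≠ 0) :
    Reg (bad N Q) s := by
  unfold bad
  refine Reg.prod fun p hp => ?_
  have h1 := Nat.prime_of_mem_primeFactors hp
  exact Reg.inv' ((aeval_diff h1.ne_zero (Q p)).analyticAt s) (hs p hp)

theorem pow_reg (hA : 0 < A) (s : ℂ) : Reg (fun s => (A : ℂ) ^ (s / 2)) s := by
  have hA' : (A : ℂ) ≠ 0 := by exact_mod_cast hA.ne'
  constructor
  · have h1 : Differentiable ℂ fun s : ℂ => (A : ℂ) ^ (s / 2) := by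
      intro s
      exact DifferentiableAt.const_cpow (by fun_prop) (Or.inl hA')
    exact h1.analyticAt s
  · show (A : ℂ) ^ (s / 2) ≠ 0
    rw [Complex.cpow_def_of_ne_zero hA']
    exact Complex.exp_ne_zero _

theorem extra_mero (hA : 0 < A) (s : ℂ) : MeromorphicAt (extra N i h hp hm Q A) s :=
  ((pow_reg hA s).1.meromorphicAt.fun_mul (arch_mero s)).fun_mul (bad_mero s)

theorem extra_reg (hA : 0 < A) {s : ℂ} (hs : (i : ℝ) / 2 < s.re ∨ s.im ≠ 0)
    (hs2 : ∀ p ∈ N.primeFactors, Polynomial.aeval ((p : ℂ) ^ (-s)) (Q p) ≠ 0) :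
    Reg (extra N i h hp hm Q A) s :=
  ((pow_reg hA s).mul (arch_reg hs)).mul (bad_reg hs2)

/-- the condition on the bad factors: no poles for `Re s > (i+1)/2` -/
def BadOK (N i : ℕ) (Q : ℕ → Polynomial ℝ) : Prop :=
  ∀ p ∈ N.primeFactors, ∀ z : ℂ, ‖z‖ < (p : ℝ) ^ (-(((i : ℝ) + 1) / 2)) →
    Polynomial.aeval z (Q p) ≠ 0

theorem bad_right (hQ : BadOK N i Q) {s : ℂ} (hs : ((i : ℝ) + 1) / 2 < s.re) :
    ∀ p ∈ N.primeFactors, Polynomial.aeval ((p : ℂ) ^ (-s)) (Q p) ≠ 0 := by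
  intro p hp
  have h1 := Nat.prime_of_mem_primeFactors hp
  refine hQ p hp _ ?_
  have h2 : (0 : ℝ) < p := by exact_mod_cast h1.pos
  rw [← Complex.ofReal_natCast, Complex.norm_cpow_eq_rpow_re_of_pos h2, Complex.neg_re]
  exact Real.rpow_lt_rpow_of_exponent_lt (by exact_mod_cast h1.one_lt) (by linarith)

theorem extra_right (hA : 0 < A) (hQ : BadOK N i Q) {s : ℂ} (hs : ((i : ℝ) + 1) / 2 < s.re) :
    Reg (extra N i h hp hm Q A) s :=
  extra_reg hA (Or.inl (by linarith)) (bad_right hQ hs)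

theorem order_top_of_reg {G : ℂ → ℂ} (hG : ∀ s, MeromorphicAt G s) {s : ℂ} (h : Reg G s) (z : ℂ) :
    meromorphicOrderAt G z ≠ ⊤ := by
  have hm : MeromorphicOn G univ := fun s _ => hG s
  refine hm.meromorphicOrderAt_ne_top_of_isPreconnected isPreconnected_univ
    (mem_univ s) (mem_univ z) ?_
  rw [h.order]
  exact WithTop.zero_ne_top

/-- the points at which the relation is required: not real, and no pole of a bad factor at the point
or at the reflected point -/
def Pt (N i : ℕ) (Q : ℕ → Polynomial ℝ) (s : ℂ) : Prop :=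
  s.im ≠ 0 ∧ ∀ p ∈ N.primeFactors, Polynomial.aeval ((p : ℂ) ^ (-s)) (Q p) ≠ 0 ∧
    Polynomial.aeval ((p : ℂ) ^ (-(((i : ℂ) + 1) - s))) (Q p) ≠ 0

theorem pt_reg (hA : 0 < A) {s : ℂ} (hs : Pt N i Q s) : Reg (extra N i h hp hm Q A) s ∧
    Reg (extra N i h hp hm Q A) (((i : ℝ) + 1 : ℝ) - s) := by
  have h1 : ((((i : ℝ) + 1 : ℝ) : ℂ)) = (i : ℂ) + 1 := by push_cast; ring
  refine ⟨extra_reg hA (Or.inr hs.1) fun p hp => (hs.2 p hp).1,
    extra_reg hA (Or.inr ?_) fun p hp => ?_⟩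
  · rw [Complex.sub_im, Complex.ofReal_im, zero_sub]
    exact neg_ne_zero.2 hs.1
  · rw [h1]
    exact (hs.2 p hp).2

theorem aeval_large {p : ℕ} (hp : p.Prime) {q : Polynomial ℝ} (hq : q.coeff 0 ≠ 0) :
    ∃ x : ℝ, Polynomial.aeval ((p : ℂ) ^ (-(x : ℂ))) q ≠ 0 := by
  have h1 : Tendsto (fun x : ℝ => Polynomial.aeval ((p : ℂ) ^ (-(x : ℂ))) q) atTop
      (𝓝 (Polynomial.aeval (0 : ℂ) q)) := by
    have h2 : Tendsto (fun x : ℝ => (p : ℂ) ^ (-(x : ℂ))) atTop (𝓝 0) := by
      rw [tendsto_zero_iff_norm_tendsto_zero]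
      have h3 : (0 : ℝ) < p := by exact_mod_cast hp.pos
      have h4 : ∀ x : ℝ, ‖(p : ℂ) ^ (-(x : ℂ))‖ = ((p : ℝ)⁻¹) ^ x := by
        intro x
        rw [← Complex.ofReal_natCast, Complex.norm_cpow_eq_rpow_re_of_pos h3, Complex.neg_re,
          Complex.ofReal_re, Real.rpow_neg h3.le, Real.inv_rpow h3.le]
      simp_rw [h4]
      exact tendsto_rpow_atTop_of_base_lt_one _ (by linarith [inv_pos.2 h3])
        (inv_lt_one_of_one_lt₀ (by exact_mod_cast hp.one_lt))
    have h5 : Continuous fun z : ℂ => Polynomial.aeval z q := by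
      have h6 : (fun z : ℂ => Polynomial.aeval z q) =
          fun z => (q.map (algebraMap ℝ ℂ)).eval z := by
        funext z
        rw [Polynomial.eval_map_algebraMap]
      rw [h6]
      exact Polynomial.continuous _
    exact (h5.tendsto 0).comp h2
  have h2 : Polynomial.aeval (0 : ℂ) q ≠ 0 := by
    rw [Polynomial.aeval_def, Polynomial.eval₂_at_zero]
    simpa using hq
  obtain ⟨x, hx⟩ := (h1.eventually_ne h2).exists
  exact ⟨x, hx⟩

theorem pt_ev (hQ : ∀ p ∈ N.primeFactors, (Q p).coeff 0 ≠ 0) {z : ℂ} (hz : z.im ≠ 0) :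
    ∀ᶠ s in 𝓝[≠] z, Pt N i Q s := by
  have h1 : ∀ᶠ s in 𝓝[≠] z, s.im ≠ 0 := by
    have : IsOpen {s : ℂ | s.im ≠ 0} := isOpen_ne_fun Complex.continuous_im continuous_const
    exact nhdsWithin_le_nhds (this.mem_nhds hz)
  have h2 : ∀ p ∈ N.primeFactors, ∀ w : ℂ,
      ∀ᶠ s in 𝓝[≠] w, Polynomial.aeval ((p : ℂ) ^ (-s)) (Q p) ≠ 0 := by
    intro p hp w
    have hp' := Nat.prime_of_mem_primeFactors hp
    have hm : ∀ s, MeromorphicAt (fun s : ℂ => Polynomial.aeval ((p : ℂ) ^ (-s)) (Q p)) s :=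
      fun s => ((aeval_diff hp'.ne_zero (Q p)).analyticAt s).meromorphicAt
    obtain ⟨x, hx⟩ := aeval_large hp' (hQ p hp)
    exact (meromorphicOrderAt_ne_top_iff_eventually_ne_zero (hm w)).1
      (order_top_of_reg hm ⟨(aeval_diff hp'.ne_zero (Q p)).analyticAt x, hx⟩ w)
  have h3 : ∀ᶠ s in 𝓝[≠] z, ∀ p ∈ N.primeFactors,
      Polynomial.aeval ((p : ℂ) ^ (-s)) (Q p) ≠ 0 :=
    (Finset.eventually_all _).2 fun p hp => h2 p hp z
  have h4 : ∀ᶠ s in 𝓝[≠] z, ∀ p ∈ N.primeFactors,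
      Polynomial.aeval ((p : ℂ) ^ (-(((i : ℂ) + 1) - s))) (Q p) ≠ 0 :=
    (tendsto_refl ((i : ℂ) + 1) z).eventually
      ((Finset.eventually_all _).2 fun p hp => h2 p hp _)
  filter_upwards [h1, h3, h4] with s e1 e2 e3
  exact ⟨e1, fun p hp => ⟨e2 p hp, e3 p hp⟩⟩

variable {b : ℕ} {α : Good N → Fin b → ℂ} {F : ℂ → ℂ}

/-- part (b) for the Hasse-Weil function -/
theorem partB_extra (E : Frob N i b α) (C : Cont i α F) (hA : 0 < A)
    (hQ : ∀ p ∈ N.primeFactors, (Q p).coeff 0 ≠ 0) {γ : ℝ} (hγ : Real.pi / 2 < γ) :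
    FEq ((i : ℝ) + 1) (fun s => extra N i h hp hm Q A s * F s) ↔
      CritB i α γ (extra N i h hp hm Q A) (Pt N i Q) := by
  refine partB_iff E C (extra_mero hA) (fun s hs => pt_reg hA hs)
    (z₀ := ((2 + (i : ℝ) / 2 : ℝ) : ℂ) + Complex.I) ?_ (pt_ev hQ ?_) hγ
  · simp only [Complex.add_re, Complex.ofReal_re, Complex.I_re, add_zero]
    linarith
  · simp

/-- part (d): all zeros of the completed function are on the critical line -/
def PartD (i : ℕ) (L : ℂ → ℂ) : Prop :=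
  ∀ s : ℂ, 0 < meromorphicOrderAt L s → s.re = ((i : ℝ) + 1) / 2

theorem partD_iff (C : Cont i α F) {G : ℂ → ℂ} (hG : ∀ s, MeromorphicAt G s)
    (hr : ∀ s : ℂ, ((i : ℝ) + 1) / 2 < s.re → Reg G s)
    (hFE : FEq ((i : ℝ) + 1) (fun s => G s * F s)) :
    PartD i (fun s => G s * F s) ↔ PartC i F := by
  set L : ℂ → ℂ := fun s => G s * F s with hL
  have hLm : ∀ s, MeromorphicAt L s := fun s => (hG s).mul (C.mero s)
  have hord : ∀ s, meromorphicOrderAt L s = meromorphicOrderAt G s + meromorphicOrderAt F s :=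
    fun s => fun_meromorphicOrderAt_mul (hG s) (C.mero s)
  constructor
  · intro hD s hs
    by_contra h1
    push Not at h1
    have h2 := hord s
    rw [(hr s h1).order, zero_add] at h2
    rw [← h2] at hs
    have h3 := hD s hs
    linarith
  · intro hC s hs
    rcases lt_trichotomy s.re (((i : ℝ) + 1) / 2) with h1 | h1 | h1
    · exfalso
      obtain ⟨ε, hε, h⟩ := hFE
      have hε0 : ε ≠ 0 := by rcases hε with h | h <;> rw [h] <;> norm_num
      have h2 : meromorphicOrderAt L s = meromorphicOrderAt L ((((i : ℝ) + 1 : ℝ) : ℂ) - s) := by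
        rw [meromorphicOrderAt_congr (h s), ← order_refl ((((i : ℝ) + 1 : ℝ) : ℂ)) s]
        have h3 := fun_meromorphicOrderAt_mul (f := fun _ : ℂ => ε)
          (g := fun w => L ((((i : ℝ) + 1 : ℝ) : ℂ) - w)) (x := s)
          (by fun_prop) (mero_refl (hLm _))
        rw [h3]
        have h4 : meromorphicOrderAt (fun _ : ℂ => ε) s = 0 :=
          Reg.order ⟨by fun_prop, hε0⟩
        rw [h4, zero_add]
      have h5 : ((i : ℝ) + 1) / 2 < ((((i : ℝ) + 1 : ℝ) : ℂ) - s).re := by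
        rw [Complex.sub_re, Complex.ofReal_re]
        linarith
      rw [h2, hord, (hr _ h5).order, zero_add] at hs
      have h6 := hC _ hs
      linarith
    · exact h1
    · exfalso
      rw [hord, (hr s h1).order, zero_add] at hs
      have := hC s hs
      linarith

end Pool.Agent.V7H1.HW
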