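import Pool.Agent.V7H1.HW.Basic

/-! The law at every point and the zeros to the right. -/

set_option autoImplicit false

namespace Pool.Agent.V7H1.HW

open Filter Topology Set ComplexConjugate
open Pool.Agent.W187.UR (Lam cmean)
open Pool.Agent.N41.RM (EG DS rayN fq cq oterm offc)

variable {N i b : ℕ} {α : Good N → Fin b → ℂ} {F : ℂ → ℂ}

/-- the rotated sum at `σ + i t`, corrected by `n (log T - Λ)`, tends to `c` -/
def Lim (α : Good N → Fin b → ℂ) (σ t γ : ℝ) (n : ℤ) (c : ℂ) : Prop :=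
  Tendsto (fun T : ℝ => W α σ t γ T + n * (Real.log T - Lam γ)) atTop (𝓝 c)

theorem log_unb {m : ℤ} {Λ c : ℂ} (h : Tendsto (fun T : ℝ => (m : ℂ) * (Real.log T - Λ)) atTop (𝓝 c)) :
    m = 0 := by
  by_contra hm
  have hmc : (m : ℂ) ≠ 0 := by exact_mod_cast hm
  have h1 := (h.const_mul (m : ℂ)⁻¹).add_const Λ
  have h2 : Tendsto (fun T : ℝ => Real.log T) atTop (𝓝 ((m : ℂ)⁻¹ * c + Λ).re) := by
    refine ((Complex.continuous_re.tendsto _).comp h1).congr fun T => ?_
    simp only [Function.comp_apply]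
    rw [← mul_assoc, inv_mul_cancel₀ hmc, one_mul, sub_add_cancel, Complex.ofReal_re]
  exact not_tendsto_nhds_of_tendsto_atTop Real.tendsto_log_atTop _ h2

theorem lim_iff (E : Frob N i b α) (C : Cont i α F) (σ t : ℝ) {γ : ℝ} (hγ : Real.pi / 2 < γ)
    (n : ℤ) (c : ℂ) : Lim α σ t γ n c ↔
      meromorphicOrderAt F (σ + t * Complex.I) = n ∧
      c = Real.log ‖meromorphicTrailingCoeffAt F (σ + t * Complex.I)‖ -
        Real.pi * rayN F σ t * Complex.I := by
  obtain ⟨m, l, h1, h2, h3, h4⟩ := law E C σ t hγ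
  set c₀ : ℂ := Real.log ‖l‖ - Real.pi * rayN F σ t * Complex.I with hc₀
  have h5 : Lim α σ t γ m c₀ := by
    have h6 : Tendsto (fun T : ℝ => W α σ t γ T - (-m * (Real.log T - Lam γ) +
        Real.log ‖l‖ - Real.pi * rayN F σ t * Complex.I)) atTop (𝓝 0) := by
      refine h4.trans_tendsto ?_
      exact tendsto_const_nhds.div_atTop tendsto_id
    have h7 := h6.add_const c₀
    rw [zero_add] at h7
    refine h7.congr fun T => ?_
    rw [hc₀]
    ring
  have h6 : Lim α σ t γ n c ↔ n = m ∧ c = c₀ := by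
    constructor
    · intro h
      have h7 : Tendsto (fun T : ℝ => (((n - m : ℤ)) : ℂ) * (Real.log T - Lam γ)) atTop
          (𝓝 (c - c₀)) := by
        refine (h.sub h5).congr fun T => ?_
        push_cast
        ring
      have h8 := log_unb h7
      have h9 : n = m := by omega
      subst h9
      exact ⟨rfl, tendsto_nhds_unique h h5⟩
    · rintro ⟨rfl, rfl⟩
      exact h5
  rw [h6, h1, h2]
  constructor
  · rintro ⟨rfl, rfl⟩
    exact ⟨rfl, rfl⟩
  · rintro ⟨h, rfl⟩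
    exact ⟨by exact_mod_cast h.symm, rfl⟩

theorem lim_exists (E : Frob N i b α) (C : Cont i α F) (σ t : ℝ) {γ : ℝ} (hγ : Real.pi / 2 < γ) :
    ∃ n c, Lim α σ t γ n c := by
  obtain ⟨n, l, h1, -⟩ := law E C σ t hγ
  exact ⟨n, _, (lim_iff E C σ t hγ n _).2 ⟨h1, rfl⟩⟩

theorem lim_rate (E : Frob N i b α) (C : Cont i α F) (σ t : ℝ) {γ : ℝ} (hγ : Real.pi / 2 < γ)
    {n : ℤ} {c : ℂ} (h : Lim α σ t γ n c) :
    (fun T : ℝ => W α σ t γ T + n * (Real.log T - Lam γ) - c) =O[atTop]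
      (fun T : ℝ => 1 / T) := by
  obtain ⟨m, l, h1, h2, h3, h4⟩ := law E C σ t hγ
  obtain ⟨h5, h6⟩ := (lim_iff E C σ t hγ n c).1 h
  rw [h1] at h5
  have h7 : m = n := by exact_mod_cast h5
  subst h7
  rw [h2] at h6
  refine h4.congr_left fun T => ?_
  rw [h6]
  ring

/-! ### Zeros on the half lines -/

/-- the order is finite -/
theorem order_ne_top (E : Frob N i b α) (C : Cont i α F) (s : ℂ) : meromorphicOrderAt F s ≠ ⊤ :=
  (C.ds E).ne_top s

theorem order_pos_iff (E : Frob N i b α) (C : Cont i α F) (s : ℂ) :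
    0 < meromorphicOrderAt F s ↔ 0 < (meromorphicOrderAt F s).untop₀ := by
  obtain ⟨k, hk⟩ := WithTop.ne_top_iff_exists.1 (order_ne_top E C s)
  rw [← hk, WithTop.untop₀_coe]
  exact_mod_cast Iff.rfl

theorem order_nonneg_iff (E : Frob N i b α) (C : Cont i α F) (s : ℂ) :
    0 ≤ meromorphicOrderAt F s ↔ 0 ≤ (meromorphicOrderAt F s).untop₀ := by
  obtain ⟨k, hk⟩ := WithTop.ne_top_iff_exists.1 (order_ne_top E C s)
  rw [← hk, WithTop.untop₀_coe]
  exact_mod_cast Iff.rfl

/-- a ray without poles -/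
theorem ray_zero_iff (E : Frob N i b α) (C : Cont i α F) (σ t : ℝ)
    (h : ∀ x : ℝ, σ < x → 0 ≤ meromorphicOrderAt F (x + t * Complex.I)) :
    rayN F σ t = 0 ↔ ∀ x : ℝ, σ < x → ¬ 0 < meromorphicOrderAt F (x + t * Complex.I) := by
  rw [(C.ds E).rayN_eq_zero_iff σ t fun x hx => (order_nonneg_iff E C _).1 (h x hx)]
  refine forall₂_congr fun x hx => ?_
  rw [order_pos_iff E C]
  have h1 := (order_nonneg_iff E C _).1 (h x hx)
  omega

/-- the real ray, with one exceptional point -/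
theorem ray_real_iff (E : Frob N i b α) (C : Cont i α F) {σ x₁ : ℝ} (hx₁ : σ < x₁)
    (h : ∀ x : ℝ, σ < x → x ≠ x₁ → 0 ≤ meromorphicOrderAt F (x : ℂ)) :
    rayN F σ 0 = (meromorphicOrderAt F (x₁ : ℂ)).untop₀ ↔
      ∀ x : ℝ, σ < x → x ≠ x₁ → ¬ 0 < meromorphicOrderAt F (x : ℂ) := by
  have hfin := (C.ds E).fin σ 0
  set g : ℝ → ℤ := fun x => (meromorphicOrderAt F (x : ℂ)).untop₀ with hg
  have hfg : (fun x : ℝ => (meromorphicOrderAt F (x + (0 : ℝ) * Complex.I)).untop₀) = g := by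
    funext x
    rw [hg, Complex.ofReal_zero, zero_mul, add_zero]
  rw [hfg] at hfin
  have hray : rayN F σ 0 = ∑ᶠ x ∈ Ioi σ, g x := by
    unfold rayN
    refine finsum_mem_congr rfl fun x _ => ?_
    exact congrFun hfg x
  have hset : Ioi σ = insert x₁ (Ioi σ \ {x₁}) := by
    rw [insert_diff_singleton, insert_eq_of_mem (show x₁ ∈ Ioi σ from hx₁)]
  have hfin2 : ((Ioi σ \ {x₁}) ∩ Function.support g).Finite :=
    hfin.subset (inter_subset_inter_left _ diff_subset)
  rw [hray, hset, finsum_mem_insert' g (by simp) hfin2]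
  have h1 : g x₁ + ∑ᶠ x ∈ Ioi σ \ {x₁}, g x = (meromorphicOrderAt F (x₁ : ℂ)).untop₀ ↔
      ∑ᶠ x ∈ Ioi σ \ {x₁}, g x = 0 := by
    rw [hg]
    simp only
    omega
  rw [h1, finsum_mem_eq_sum _ hfin2, Finset.sum_eq_zero_iff_of_nonneg]
  · constructor
    · intro h2 x hx hx1 h3
      rw [order_pos_iff E C] at h3
      have h4 := h2 x (by
        rw [Set.Finite.mem_toFinset]
        exact ⟨⟨hx, hx1⟩, h3.ne'⟩)
      rw [hg] at h4
      simp only at h4
      omega
    · intro h2 x hx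
      rw [Set.Finite.mem_toFinset] at hx
      have h3 := h2 x hx.1.1 hx.1.2
      have h4 := h x hx.1.1 hx.1.2
      rw [order_pos_iff E C] at h3
      rw [order_nonneg_iff E C] at h4
      show (meromorphicOrderAt F (x : ℂ)).untop₀ = 0
      omega
  · intro x hx
    rw [Set.Finite.mem_toFinset] at hx
    exact (order_nonneg_iff E C _).1 (h x hx.1.1 hx.1.2)

/-- part (c): all zeros are in `Re s ≤ (i+1)/2` -/
def PartC (i : ℕ) (F : ℂ → ℂ) : Prop :=
  ∀ s : ℂ, 0 < meromorphicOrderAt F s → s.re ≤ ((i : ℝ) + 1) / 2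

/-- there are no poles in `Re s > (i+1)/2`, except possibly at the point `1 + i/2` -/
def FewPoles (i : ℕ) (F : ℂ → ℂ) : Prop :=
  ∀ s : ℂ, ((i : ℝ) + 1) / 2 < s.re → s ≠ ((1 + (i : ℝ) / 2 : ℝ) : ℂ) →
    0 ≤ meromorphicOrderAt F s

/-- the criterion for part (c) -/
def CritC (i : ℕ) (α : Good N → Fin b → ℂ) (γ : ℝ) : Prop :=
  (∀ t : ℝ, t ≠ 0 → ∃ n c, Lim α (((i : ℝ) + 1) / 2) t γ n c ∧ c.im = 0) ∧
  ∃ n c r c', Lim α (((i : ℝ) + 1) / 2) 0 γ n c ∧ Lim α (1 + (i : ℝ) / 2) 0 γ r c' ∧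
    r ≤ 0 ∧ c.im = -Real.pi * r

theorem partC_iff (E : Frob N i b α) (C : Cont i α F) (hP : FewPoles i F) {γ : ℝ}
    (hγ : Real.pi / 2 < γ) : PartC i F ↔ CritC i α γ := by
  have hπ := Real.pi_pos
  have hi : (0 : ℝ) ≤ i := i.cast_nonneg
  set σ₀ : ℝ := ((i : ℝ) + 1) / 2 with hσ₀
  set x₁ : ℝ := 1 + (i : ℝ) / 2 with hx₁
  have hx : σ₀ < x₁ := by rw [hσ₀, hx₁]; linarith
  have hC : PartC i F ↔ ∀ (t x : ℝ), σ₀ < x → ¬ 0 < meromorphicOrderAt F (x + t * Complex.I) := by
    unfold PartC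
    constructor
    · intro h t x hx' h0
      have := h _ h0
      simp only [Complex.add_re, Complex.ofReal_re, Complex.mul_re, Complex.I_re, mul_zero,
        Complex.ofReal_im, Complex.I_im, mul_one, sub_self, add_zero] at this
      linarith
    · intro h s hs
      by_contra h1
      push Not at h1
      apply h s.im s.re h1
      rwa [Complex.re_add_im]
  have him : ∀ (t : ℝ) (n : ℤ) (c : ℂ), Lim α σ₀ t γ n c → c.im = -Real.pi * rayN F σ₀ t := by
    intro t n c h
    rw [((lim_iff E C σ₀ t hγ n c).1 h).2]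
    simp
  have hray : ∀ t : ℝ, t ≠ 0 → ((∃ n c, Lim α σ₀ t γ n c ∧ c.im = 0) ↔
      ∀ x : ℝ, σ₀ < x → ¬ 0 < meromorphicOrderAt F (x + t * Complex.I)) := by
    intro t ht
    rw [← ray_zero_iff E C σ₀ t fun x hx' => hP _ (by simpa using hx') (by
      intro h
      apply ht
      have := congrArg Complex.im h
      simpa using this)]
    constructor
    · rintro ⟨n, c, h1, h2⟩
      rw [him t n c h1] at h2
      have h3 : ((rayN F σ₀ t : ℤ) : ℝ) = 0 := by
        rcases mul_eq_zero.1 h2 with h3 | h3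
        · linarith
        · exact h3
      exact_mod_cast h3
    · intro h
      obtain ⟨n, c, h1⟩ := lim_exists E C σ₀ t hγ
      refine ⟨n, c, h1, ?_⟩
      rw [him t n c h1, h]
      simp
  have hreal := ray_real_iff E C hx fun x hx' hne => hP _ (by simpa using hx') (by
      intro h
      apply hne
      exact_mod_cast h)
  rw [hC]
  constructor
  · intro h
    refine ⟨fun t ht => (hray t ht).2 (h t), ?_⟩
    obtain ⟨n, c, h1⟩ := lim_exists E C σ₀ 0 hγ
    obtain ⟨r, c', h2⟩ := lim_exists E C x₁ 0 hγ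
    have h3 := ((lim_iff E C x₁ 0 hγ r c').1 h2).1
    rw [Complex.ofReal_zero, zero_mul, add_zero] at h3
    refine ⟨n, c, r, c', h1, h2, ?_, ?_⟩
    · have h4 := h 0 x₁ hx
      rw [Complex.ofReal_zero, zero_mul, add_zero, h3] at h4
      by_contra h5
      push Not at h5
      apply h4
      exact_mod_cast h5
    · rw [him 0 n c h1]
      have h4 := hreal.2 fun x hx' _ h0 => by
        have h5 := h 0 x hx'
        rw [Complex.ofReal_zero, zero_mul, add_zero] at h5
        exact h5 h0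
      rw [h4, h3, WithTop.untop₀_coe]
  · rintro ⟨h1, n, c, r, c', h2, h3, h4, h5⟩ t x hx' h0
    by_cases ht : t = 0
    · subst ht
      rw [Complex.ofReal_zero, zero_mul, add_zero] at h0
      have h6 := ((lim_iff E C x₁ 0 hγ r c').1 h3).1
      rw [Complex.ofReal_zero, zero_mul, add_zero] at h6
      by_cases hxx : x = x₁
      · rw [hxx, h6] at h0
        have h7 : 0 < r := by exact_mod_cast h0
        omega
      · refine hreal.1 ?_ x hx' hxx h0
        rw [h6, WithTop.untop₀_coe]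
        rw [him 0 n c h2] at h5
        have h7 : ((rayN F σ₀ 0 : ℤ) : ℝ) = r := by
          have h8 : -Real.pi ≠ 0 := by linarith
          exact mul_left_cancel₀ h8 h5
        exact_mod_cast h7
    · exact (hray t ht).1 (h1 t ht) x hx' h0

end Pool.Agent.V7H1.HW
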